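import Mathlib
import Pool.Agent.Helper44.DL.Space

/-!
# Discretely Lindelof complements of the diagonal: the possible cardinalities of a counterexample

Let `X` be a space such that the complement of the diagonal in `X × X` is a Tychonoff discretely
Lindelof space. `X` is assumed to be T1 or to have three points; this excludes only the two point
Sierpinski space (whose complement of the diagonal is a discrete space with two points).

`result`:
1. `X` has at most `2 ^ 2 ^ ℵ₀` points;
2. every open cover of the complement of the diagonal of cardinality less than `ℵ_ω` has a
   countable subcover;
3. if `X` has a network of cardinality less than `ℵ_ω` (for example if `X` has fewer than `ℵ_ω`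
   points, or a base with fewer than `ℵ_ω` elements) then the complement of the diagonal is Lindelof
   and the diagonal is a `Gδ` set.

So a space for which the answer to the question is negative has network weight at least `ℵ_ω` and
cardinality at most `2 ^ 2 ^ ℵ₀`.

Proof. (2) By the lemma of Shapirovskii, for an increasing well ordered open cover `W` without
countable cofinal sets of indices choose for each point the first member which contains it; there is
a discrete set `A` such that the chosen members for the points of `A` and the closure of `A` cover;
the closure of `A` is Lindelof, so it is in one `W b`, and then `W b` is everything. Induction on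
`n` gives the countable subcovers of the covers of cardinality `ℵ_n`. (1) The closure of a discrete
set `D` in `X` has a Lindelof square without the diagonal, so it is separated by countably many
pairs of disjoint open sets and has at most continuum many points. The subspace of the points
different from `p` is discretely Lindelof, so by Shapirovskii's lemma `p` is the intersection of at
most continuum many open sets. The points of `X` are then coded as in the inequality of Hajnal and
Juhasz by well ordered sequences of length less than the successor of the continuum.
-/

set_option autoImplicit false

namespace Pool.Agent.Results.MP_c3e341_gt.CardinalRange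

open Set Topology Cardinal Ordinal
open Pool.Agent.Helper44.DL

universe u

theorem result {X : Type u} [TopologicalSpace X]
    (h3 : T1Space X ∨ ∃ a b c : X, a ≠ b ∧ a ≠ c ∧ b ≠ c)
    (hT : T35Space {z : X × X // z.1 ≠ z.2})
    (hL : DiscretelyLindelof {z : X × X // z.1 ≠ z.2}) :
    #X ≤ 2 ^ (2 ^ ℵ₀ : Cardinal.{u}) ∧
    (∀ (I : Type u) (V : I → Set {z : X × X // z.1 ≠ z.2}), (∀ i, IsOpen (V i)) →
      (∀ z, ∃ i, z ∈ V i) → #I < ℵ_ ω → ∃ r : Set I, r.Countable ∧ ∀ z, ∃ i ∈ r, z ∈ V i) ∧
    (∀ (I : Type u) (N : I → Set X),
      (∀ U : Set X, IsOpen U → ∀ x ∈ U, ∃ i, x ∈ N i ∧ N i ⊆ U) → #I < ℵ_ ω →
        LindelofSpace {z : X × X // z.1 ≠ z.2} ∧ IsGδ (diagonal X)) := by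
  have h1 : T3Space X := t3_of h3
  refine ⟨card_le hL, fun I V hV hc hI => countable_subcover hL V hV hc hI,
    fun I N hN hI => ?_⟩
  have h2 := lindelof_of_network hL N hN hI
  exact ⟨h2, gdelta_of_lindelof h2⟩

end Pool.Agent.Results.MP_c3e341_gt.CardinalRange
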